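import Mathlib

set_option autoImplicit false

/-!
# Hierarchical class systems: definitions
-/

open Finset

namespace Pool.Agent.T2H11.HS

variable {V : Type} [DecidableEq V]

/-- `Z` has elements in at least two of the classes of `c` -/
def Meets2 {r : ℕ} (c : V → Fin r) (Z : Finset V) : Prop := ∃ u ∈ Z, ∃ v ∈ Z, c u ≠ c v

/-- `Z` and `Z'` have the same number of elements in every class of `c` -/
def SameProfile {r : ℕ} (c : V → Fin r) (Z Z' : Finset V) : Prop :=
  ∀ i, (Z.filter (fun v => c v = i)).card = (Z'.filter (fun v => c v = i)).card

/-- The classes of `c` form a uniform division of `W`: for the `t`-subsets of `W` that meet at least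
two classes the membership in `F` depends only on the numbers of elements in the classes. Nothing is
assumed about the subsets of the classes. -/
def Uniform {r : ℕ} (t : ℕ) (F : Finset (Finset V)) (W : Finset V) (c : V → Fin r) : Prop :=
  ∀ Z Z' : Finset V, Z ⊆ W → Z' ⊆ W → Z.card = t → Z'.card = t → Meets2 c Z → SameProfile c Z Z' →
    (Z ∈ F ↔ Z' ∈ F)

/-- The sets which are obtained from the base sets by uniform divisions into at most `r` classes, the
classes being obtained before. -/
inductive Built (r t : ℕ) (F : Finset (Finset V)) (base : Finset V → Prop) : Finset V → Prop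
  | base (W : Finset V) : base W → Built r t F base W
  | step (W : Finset V) (c : V → Fin r) : Uniform t F W c →
      (∀ i, (W.filter (fun v => c v = i)).Nonempty →
        Built r t F base (W.filter (fun v => c v = i))) → Built r t F base W

/-- the members of `F` inside `W` -/
def inside (F : Finset (Finset V)) (W : Finset V) : Finset (Finset V) := F.filter (· ⊆ W)

/-- every subset of `W` with `k` elements contains a member of `F` -/
def Covers (F : Finset (Finset V)) (k : ℕ) (W : Finset V) : Prop :=
  ∀ Y : Finset V, Y ⊆ W → Y.card = k → ∃ Z ∈ F, Z ⊆ Y

end Pool.Agent.T2H11.HS
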