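import Pool.Agent.T2H11.HS.Split
import Pool.Agent.R89.Cls.Upper

set_option autoImplicit false

/-!
# Hierarchical class systems: the lower bound
-/

open Finset

namespace Pool.Agent.T2H11.HS

variable {V : Type} [DecidableEq V]

omit [DecidableEq V] in
lemma Covers.mono {F : Finset (Finset V)} {k : ℕ} {W W' : Finset V} (h : Covers F k W)
    (hW : W' ⊆ W) : Covers F k W' := fun Y hY hk => h Y (hY.trans hW) hk

/-- Closure under uniform divisions. -/
theorem built_bound {r t : ℕ} (ht : 2 ≤ t) {F : Finset (Finset V)}
    (hF : ∀ Z ∈ F, Z.card = t) {base : Finset V → Prop} {κ : ℝ} (hκ : 0 ≤ κ) (hκr : κ * r ≤ 1)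
    (hb : ∀ B, base B → κ * M t B.card ≤ val t F B) (W : Finset V) (hW : Built r t F base W)
    (hcov : Covers F (t + 1) W) : κ * M t W.card ≤ val t F W := by
  classical
  induction hW with
  | base W h => exact hb W h
  | step W c hu _ ih =>
    rcases W.eq_empty_or_nonempty with rfl | hne
    · have h1 : (0 + t - 1).choose t = 0 := Nat.choose_eq_zero_of_lt (by omega)
      have h2 : Nat.choose 0 t = 0 := Nat.choose_eq_zero_of_lt (by omega)
      unfold val M
      rw [card_empty, h1, h2]
      simp
    · set ι := {i : Fin r // (W.filter (fun v => c v = i)).Nonempty} with hι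
      set A : ι → Finset V := fun i => W.filter (fun v => c v = i.1) with hAdef
      obtain ⟨v0, hv0⟩ := hne
      have hnι : Nonempty ι := ⟨⟨c v0, v0, by simp [hv0]⟩⟩
      have hun : un A = W := by
        ext v
        rw [mem_un]
        constructor
        · rintro ⟨i, hi⟩
          exact (mem_filter.1 hi).1
        · intro hv
          exact ⟨⟨c v, v, by simp [hv]⟩, by simp [hAdef, hv]⟩
      have hd : ∀ i j, i ≠ j → Disjoint (A i) (A j) := by
        intro i j hij
        rw [Finset.disjoint_left]
        intro v hv hv'
        have h1 := (mem_filter.1 hv).2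
        have h2 := (mem_filter.1 hv').2
        exact hij (Subtype.ext (h1.symm.trans h2))
      have hcard : (Fintype.card ι : ℝ) ≤ r := by
        have : Fintype.card ι ≤ Fintype.card (Fin r) := Fintype.card_subtype_le _
        rw [Fintype.card_fin] at this
        exact_mod_cast this
      have hmain := split_bound ht A (fun i => i.2) hd F hF (by rw [hun]; exact hcov) ?_ hκ
        ((mul_le_mul_of_nonneg_left hcard hκ).trans hκr) ?_
      · rwa [hun] at hmain
      · intro Z Z' hZ hZ' hZc hZc' hZA hpr hZF
        rw [hun] at hZ hZ'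
        refine (hu Z Z' hZ hZ' hZc hZc' ?_ ?_).1 hZF
        · by_contra hcon
          unfold Meets2 at hcon
          push Not at hcon
          have hZne : Z.Nonempty := by
            rw [← card_pos, hZc]
            omega
          obtain ⟨u, hu'⟩ := hZne
          apply hZA ⟨c u, u, by simp [hZ hu']⟩
          intro v hv
          rw [hAdef, mem_filter]
          exact ⟨hZ hv, hcon v hv u hu'⟩
        · intro i
          by_cases hi : (W.filter (fun v => c v = i)).Nonempty
          · have h1 := congrFun hpr ⟨i, hi⟩
            unfold pr at h1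
            have h2 : ∀ X : Finset V, X ⊆ W → X ∩ A ⟨i, hi⟩ = X.filter (fun v => c v = i) := by
              intro X hX
              ext v
              rw [hAdef]
              simp only [mem_inter, mem_filter]
              constructor
              · rintro ⟨h3, -, h4⟩
                exact ⟨h3, h4⟩
              · rintro ⟨h3, h4⟩
                exact ⟨h3, hX h3, h4⟩
            rw [h2 Z hZ, h2 Z' hZ'] at h1
            exact h1
          · rw [not_nonempty_iff_eq_empty] at hi
            have h2 : ∀ X : Finset V, X ⊆ W → X.filter (fun v => c v = i) = ∅ := by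
              intro X hX
              rw [← subset_empty, ← hi]
              exact filter_subset_filter _ hX
            rw [h2 Z hZ, h2 Z' hZ']
      · intro i
        exact ih i.1 i.2 (hcov.mono (filter_subset _ _))

/-- the base of single vertices -/
def Single (B : Finset V) : Prop := ∃ v, B = {v}

omit [DecidableEq V] in
lemma single_val [DecidableEq V] {t : ℕ} (ht : 2 ≤ t) {F : Finset (Finset V)} {κ : ℝ} (hκ : κ ≤ 1) (B : Finset V) (hB : Single B) :
    κ * M t B.card ≤ val t F B := by
  obtain ⟨v, rfl⟩ := hB
  unfold val M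
  rw [card_singleton]
  have h1 : 1 + t - 1 = t := by omega
  have h2 : Nat.choose 1 t = 0 := Nat.choose_eq_zero_of_lt (by omega)
  rw [h1, h2, Nat.choose_self]
  have : (0 : ℝ) ≤ ((inside F {v}).card : ℝ) := by positivity
  push_cast
  linarith

/-- The lower bound for hierarchical class systems. -/
theorem hier_lower [Fintype V] {r t : ℕ} (ht : 2 ≤ t) (hr : 1 ≤ r) {F : Finset (Finset V)}
    (hF : ∀ Z ∈ F, Z.card = t) (hW : Built r t F Single (univ : Finset V))
    (hcov : Covers F (t + 1) univ) (hn : 1 ≤ Fintype.card V) :
    (1 / (r : ℝ) - t * (t - 1) / Fintype.card V) * ((Fintype.card V).choose t : ℝ) ≤ F.card := by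
  have hr0 : (1 : ℝ) ≤ r := by exact_mod_cast hr
  have hκ : (0 : ℝ) ≤ 1 / r := by positivity
  have hκ1 : (1 : ℝ) / r ≤ 1 := by rw [div_le_one (by linarith)]; exact hr0
  have hκr : (1 : ℝ) / r * r ≤ 1 := by rw [one_div, inv_mul_cancel₀ (by linarith)]
  have h := built_bound ht hF hκ hκr (fun B hB => single_val ht hκ1 B hB) univ hW hcov
  have hin : inside F univ = F := by
    unfold inside
    exact filter_true_of_mem fun Z _ => subset_univ Z
  unfold val at h
  rw [hin, card_univ] at h
  set n := Fintype.card V with hnn
  have h3 := Pool.Agent.R89.Cls.choose_ratio n hn t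
  have hn0 : (0 : ℝ) < n := by exact_mod_cast hn
  unfold M at h
  set Mn : ℝ := ((n + t - 1).choose t : ℝ) with hMn
  set C : ℝ := (n.choose t : ℝ) with hC
  have hC0 : 0 ≤ C := by positivity
  have hCM : C ≤ Mn := by
    have : n ≤ n + t - 1 := by omega
    rw [hC, hMn]
    exact_mod_cast Nat.choose_le_choose t this
  have hF0 : (0 : ℝ) ≤ F.card := by positivity
  rcases le_or_gt (1 / (r : ℝ)) (t * (t - 1) / n) with hc | hc
  · have : (1 / (r : ℝ) - t * (t - 1) / n) * C ≤ 0 :=
      mul_nonpos_of_nonpos_of_nonneg (by linarith) hC0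
    linarith
  · have h6 : Mn - C ≤ t * (t - 1) / n * Mn := by
      rw [div_mul_eq_mul_div, le_div_iff₀ hn0]
      linarith
    have h8 : (1 / (r : ℝ) - t * (t - 1) / n) * C ≤ (1 / (r : ℝ) - t * (t - 1) / n) * Mn :=
      mul_le_mul_of_nonneg_left hCM (by linarith)
    have h9 : (1 / (r : ℝ) - t * (t - 1) / n) * Mn = 1 / (r : ℝ) * Mn - t * (t - 1) / n * Mn := by
      ring
    linarith

end Pool.Agent.T2H11.HS
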