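import Pool.Agent.R89.Cls.Prof

set_option autoImplicit false

/-!
# The bound for profiles, with a base
-/

open Finset

namespace Pool.Agent.T2H11.HS

open Pool.Agent.R89.Cls

variable {ι : Type} [Fintype ι] [DecidableEq ι]

/-- lower the coordinate `i` by one -/
def down (y : ι → ℕ) (i : ι) : ι → ℕ := Function.update y i (y i - 1)

omit [Fintype ι] in
lemma down_up (x : ι → ℕ) (i : ι) : down (up x i) i = x := by
  unfold down up
  rw [Function.update_self, Function.update_idem, Nat.add_sub_cancel, Function.update_eq_self]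

omit [Fintype ι] in
lemma up_down {y : ι → ℕ} {i : ι} (h : 1 ≤ y i) : up (down y i) i = y := by
  unfold down up
  rw [Function.update_self, Function.update_idem, Nat.sub_add_cancel h, Function.update_eq_self]

omit [Fintype ι] in
lemma up_self (x : ι → ℕ) (i : ι) : up x i i = x i + 1 := by
  unfold up
  rw [Function.update_self]

lemma reindex (t : ℕ) (i : ι) (g : (ι → ℕ) → ℝ) (E : (ι → ℕ) → ℝ) :
    ∑ x ∈ piAntidiag univ t, g x * E (up x i) =
      ∑ y ∈ piAntidiag univ (t + 1), (if 1 ≤ y i then g (down y i) else 0) * E y := by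
  rw [← Finset.sum_filter_add_sum_filter_not (piAntidiag univ (t + 1)) (fun y => 1 ≤ y i)]
  have h2 : ∑ y ∈ (piAntidiag univ (t + 1)).filter (fun y => ¬ 1 ≤ y i),
      (if 1 ≤ y i then g (down y i) else 0) * E y = 0 := by
    refine sum_eq_zero fun y hy => ?_
    rw [if_neg (mem_filter.1 hy).2, zero_mul]
  rw [h2, add_zero]
  refine Finset.sum_nbij' (fun x => up x i) (fun y => down y i) ?_ ?_ ?_ ?_ ?_
  · intro x hx
    rw [mem_filter]
    rw [mem_level] at hx ⊢
    rw [sum_up, hx, up_self]
    exact ⟨rfl, by omega⟩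
  · intro y hy
    obtain ⟨h3, h4⟩ := mem_filter.1 hy
    rw [mem_level] at h3 ⊢
    have := sum_up (down y i) i
    rw [up_down h4, h3] at this
    omega
  · intro x _
    exact down_up x i
  · intro y hy
    exact up_down (mem_filter.1 hy).2
  · intro x _
    rw [up_self, if_pos (by omega), down_up]

theorem profile_bound' [Nonempty ι] (N : ι → ℕ) (t : ℕ) (d : (ι → ℕ) → ℝ) (hd : ∀ x, 0 ≤ d x)
    {κ : ℝ} (hκ : 0 ≤ κ) (hκr : κ * Fintype.card ι ≤ 1)
    (hcov : ∀ y ∈ piAntidiag univ (t + 1), (∀ i, y ≠ Pi.single i (t + 1)) →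
      ∃ i, 1 ≤ y i ∧ 1 ≤ d (down y i))
    (hs : ∀ i : ι, κ ≤ d (Pi.single i t)) :
    κ * ∑ x ∈ piAntidiag univ t, wt N x ≤ ∑ x ∈ piAntidiag univ t, d x * wt N x := by
  have hr : (0 : ℝ) < Fintype.card ι := by exact_mod_cast Fintype.card_pos
  set E : (ι → ℕ) → ℝ := fun y => Ex (Mp N y) with hE
  have hE0 : ∀ y, 0 ≤ E y := fun y => Ex_Mp_nonneg _ N y rfl
  have hw : ∀ x, ∑ i, E (up x i) = (Fintype.card ι : ℝ) * wt N x := fun x => sum_Ex N x
  have key : ∀ g : (ι → ℕ) → ℝ, (Fintype.card ι : ℝ) * ∑ x ∈ piAntidiag univ t, g x * wt N x =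
      ∑ y ∈ piAntidiag univ (t + 1), (∑ i, if 1 ≤ y i then g (down y i) else 0) * E y := by
    intro g
    rw [mul_sum]
    have h1 : ∀ x, (Fintype.card ι : ℝ) * (g x * wt N x) = ∑ i, g x * E (up x i) := by
      intro x
      rw [← mul_sum, hw]
      ring
    simp_rw [h1]
    rw [sum_comm]
    simp_rw [reindex t _ g E]
    rw [sum_comm]
    refine sum_congr rfl fun y _ => ?_
    rw [sum_mul]
  have h1 := key (fun _ => κ)
  have h2 := key d
  have h3 : (Fintype.card ι : ℝ) * (κ * ∑ x ∈ piAntidiag univ t, wt N x) ≤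
      (Fintype.card ι : ℝ) * ∑ x ∈ piAntidiag univ t, d x * wt N x := by
    have e : κ * ∑ x ∈ piAntidiag univ t, wt N x = ∑ x ∈ piAntidiag univ t, κ * wt N x :=
      mul_sum _ _ _
    rw [e, h1, h2]
    refine sum_le_sum fun y hy => mul_le_mul_of_nonneg_right ?_ (hE0 y)
    by_cases hsing : ∀ i, y ≠ Pi.single i (t + 1)
    · obtain ⟨i, hi1, hi2⟩ := hcov y hy hsing
      have h4 : ∑ i, (if 1 ≤ y i then κ else 0) ≤ ∑ _i : ι, κ := by
        refine sum_le_sum fun i _ => ?_
        split_ifs
        · exact le_rfl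
        · exact hκ
      rw [sum_const, card_univ, nsmul_eq_mul] at h4
      have h5 : (if 1 ≤ y i then d (down y i) else 0) ≤
          ∑ i, if 1 ≤ y i then d (down y i) else 0 := by
        refine Finset.single_le_sum (f := fun i => if 1 ≤ y i then d (down y i) else 0) ?_
          (mem_univ i)
        intro j _
        split_ifs
        · exact hd _
        · exact le_rfl
      rw [if_pos hi1] at h5
      linarith
    · push Not at hsing
      obtain ⟨i, rfl⟩ := hsing
      refine sum_le_sum fun j _ => ?_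
      by_cases hji : j = i
      · subst hji
        rw [Pi.single_eq_same, if_pos (by omega), if_pos (by omega)]
        have : down (Pi.single j (t + 1)) j = (Pi.single j t : ι → ℕ) := by
          unfold down
          rw [Pi.single_eq_same]
          ext k
          by_cases hkj : k = j
          · subst hkj
            rw [Function.update_self, Pi.single_eq_same]
            omega
          · rw [Function.update_of_ne hkj, Pi.single_eq_of_ne hkj, Pi.single_eq_of_ne hkj]
        rw [this]
        exact hs j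
      · rw [Pi.single_eq_of_ne hji, if_neg (by omega), if_neg (by omega)]
  exact le_of_mul_le_mul_left h3 hr

end Pool.Agent.T2H11.HS
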