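import Pool.Agent.T2H11.HS.Three

set_option autoImplicit false

/-!
# Consequences and examples
-/

open Finset

namespace Pool.Agent.T2H11.HS

variable {V : Type} [DecidableEq V]

/-- from `Built` with two classes to Turán's bound -/
theorem built_three {F : Finset (Finset V)} (h3 : ∀ Z ∈ F, Z.card = 3)
    {base : Finset V → Prop} (hb : ∀ B, base B → 2 ≤ B.card → TuranThree F B) (W : Finset V)
    (hW : Built 2 3 F base W) : 2 ≤ W.card → TuranThree F W := by
  classical
  induction hW with
  | base W h => exact hb W h
  | step W c hu _ ih =>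
    intro hW2
    set A := W.filter (fun v => c v = 0) with hA
    set B := W.filter (fun v => c v = 1) with hB
    have hd : Disjoint A B := by
      rw [Finset.disjoint_left]
      intro v hv hv'
      have h1 := (mem_filter.1 hv).2
      have h2 := (mem_filter.1 hv').2
      rw [h1] at h2
      exact absurd h2 (by decide)
    have hAB : A ∪ B = W := by
      ext v
      rw [mem_union, hA, hB, mem_filter, mem_filter]
      constructor
      · rintro (h | h) <;> exact h.1
      · intro hv
        have h2 : c v = 0 ∨ c v = 1 := by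
          rcases Fin.exists_fin_two.1 ⟨c v, rfl⟩ with h | h
          · exact Or.inl h
          · exact Or.inr h
        rcases h2 with h | h
        · exact Or.inl ⟨hv, h⟩
        · exact Or.inr ⟨hv, h⟩
    rcases A.eq_empty_or_nonempty with hAe | hAn
    · have hBW : B = W := by rw [← hAB, hAe, empty_union]
      rw [← hBW]
      refine ih 1 ?_ ?_
      · change B.Nonempty
        rw [hBW, ← card_pos]
        omega
      · change 2 ≤ B.card
        rw [hBW]
        exact hW2
    rcases B.eq_empty_or_nonempty with hBe | hBn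
    · have hAW : A = W := by rw [← hAB, hBe, union_empty]
      rw [← hAW]
      refine ih 0 ?_ ?_
      · change A.Nonempty
        exact hAn
      · change 2 ≤ A.card
        rw [hAW]
        exact hW2
    rw [← hAB]
    -- counts
    have hcount : ∀ Z : Finset V, Z ⊆ W → (Z.filter (fun v => c v = 0)).card = (Z ∩ A).card ∧
        (Z.filter (fun v => c v = 1)).card = (Z ∩ B).card := by
      intro Z hZ
      constructor
      · congr 1
        ext v
        rw [mem_inter, mem_filter, hA, mem_filter]
        exact ⟨fun h => ⟨h.1, hZ h.1, h.2⟩, fun h => ⟨h.1, h.2.2⟩⟩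
      · congr 1
        ext v
        rw [mem_inter, mem_filter, hB, mem_filter]
        exact ⟨fun h => ⟨h.1, hZ h.1, h.2⟩, fun h => ⟨h.1, h.2.2⟩⟩
    have huse : ∀ Z Z' : Finset V, Z ⊆ W → Z' ⊆ W → (Z ∩ A).card + (Z ∩ B).card = 3 →
        1 ≤ (Z ∩ A).card → 1 ≤ (Z ∩ B).card → (Z ∩ A).card = (Z' ∩ A).card →
        (Z ∩ B).card = (Z' ∩ B).card → Z ∈ F → Z' ∈ F := by
      intro Z Z' hZ hZ' hsum h1 h2 e1 e2 hZF
      have hcard : ∀ X : Finset V, X ⊆ W → (X ∩ A).card + (X ∩ B).card = X.card := by
        intro X hX
        rw [← card_union_of_disjoint, ← inter_union_distrib_left, hAB, inter_eq_left.2 hX]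
        exact hd.mono inter_subset_right inter_subset_right
      have hZc := hcard Z hZ
      have hZc' := hcard Z' hZ'
      refine (hu Z Z' hZ hZ' (by omega) (by omega) ?_ ?_).1 hZF
      · obtain ⟨u, hu'⟩ := card_pos.1 (by omega : 0 < (Z ∩ A).card)
        obtain ⟨v, hv'⟩ := card_pos.1 (by omega : 0 < (Z ∩ B).card)
        rw [mem_inter] at hu' hv'
        refine ⟨u, hu'.1, v, hv'.1, ?_⟩
        rw [(mem_filter.1 hu'.2).2, (mem_filter.1 hv'.2).2]
        decide
      · intro i
        obtain ⟨a1, a2⟩ := hcount Z hZ
        obtain ⟨b1, b2⟩ := hcount Z' hZ'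
        fin_cases i
        · change (Z.filter (fun v => c v = 0)).card = (Z'.filter (fun v => c v = 0)).card
          rw [a1, b1, e1]
        · change (Z.filter (fun v => c v = 1)).card = (Z'.filter (fun v => c v = 1)).card
          rw [a2, b2, e2]
    refine split_three hd h3 hAn hBn ⟨?_, ?_⟩ ?_ ?_
    · intro Z Z' hZ hZ' hZF
      rw [mem_two hd, hAB] at hZ hZ'
      exact huse Z Z' hZ.1 hZ'.1 (by omega) (by omega) (by omega) (by omega) (by omega) hZF
    · intro Z Z' hZ hZ' hZF
      rw [mem_two hd.symm, union_comm, hAB] at hZ hZ'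
      exact huse Z Z' hZ.1 hZ'.1 (by omega) (by omega) (by omega) (by omega) (by omega) hZF
    · exact ih 0 hAn
    · exact ih 1 hBn

/-- the triples inside the classes of `c` -/
def classTriples [Fintype V] {m : ℕ} (c : V → Fin m) : Finset (Finset V) :=
  univ.filter (fun Z => Z.card = 3 ∧ ∀ u ∈ Z, ∀ v ∈ Z, c u = c v)

lemma classTriples_three [Fintype V] {m : ℕ} (c : V → Fin m) (Z : Finset V)
    (hZ : Z ∈ classTriples c) : Z.card = 3 := by
  unfold classTriples at hZ
  rw [mem_filter] at hZ
  exact hZ.2.1

lemma classTriples_built [Fintype V] {m : ℕ} (c : V → Fin m) : ∀ (k : ℕ) (W : Finset V),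
    W.card = k → 1 ≤ k → Built 2 3 (classTriples c) Single W := by
  classical
  intro k
  induction k using Nat.strong_induction_on with
  | _ k ih =>
    intro W hW hk
    rcases Nat.lt_or_ge k 2 with h | h
    · apply Built.base
      exact card_eq_one.1 (by omega)
    -- a uniform division into two nonempty classes is enough
    have step : ∀ d : V → Fin 2, Uniform 3 (classTriples c) W d →
        (∀ i, (W.filter (fun v => d v = i)).Nonempty) → Built 2 3 (classTriples c) Single W := by
      intro d hd hne
      refine Built.step W d hd fun i hi => ?_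
      refine ih (W.filter (fun v => d v = i)).card ?_ _ rfl (card_pos.2 hi)
      rw [← hW]
      apply card_lt_card
      refine ⟨filter_subset _ _, fun hsub => ?_⟩
      obtain ⟨v, hv⟩ := hne (i + 1)
      rw [mem_filter] at hv
      have h2 := (mem_filter.1 (hsub hv.1)).2
      rw [h2] at hv
      have h3 := hv.2
      revert h3
      fin_cases i <;> simp
    by_cases hc : ∀ u ∈ W, ∀ v ∈ W, c u = c v
    · -- one class: split off a vertex
      obtain ⟨a, ha, b, hb, hab⟩ := one_lt_card.1 (by omega : 1 < W.card)
      refine step (fun v => if v = a then 0 else 1) ?_ ?_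
      · intro Z Z' hZ hZ' hZc hZc' _ _
        unfold classTriples
        rw [mem_filter, mem_filter]
        constructor
        · intro _
          exact ⟨mem_univ _, hZc', fun u hu v hv => hc u (hZ' hu) v (hZ' hv)⟩
        · intro _
          exact ⟨mem_univ _, hZc, fun u hu v hv => hc u (hZ hu) v (hZ hv)⟩
      · intro i
        fin_cases i
        · exact ⟨a, by simp [ha]⟩
        · exact ⟨b, by simp [hb, Ne.symm hab]⟩
    · push Not at hc
      obtain ⟨a, ha, b, hb, hab⟩ := hc
      refine step (fun v => if c v = c a then 0 else 1) ?_ ?_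
      · intro Z Z' hZ hZ' hZc hZc' hm hp
        have hnot : ∀ X : Finset V, (∃ u ∈ X, ∃ v ∈ X, c u = c a ∧ c v ≠ c a) →
            X ∉ classTriples c := by
          rintro X ⟨u, hu, v, hv, h1, h2⟩ hX
          unfold classTriples at hX
          rw [mem_filter] at hX
          exact h2 ((hX.2.2 v hv u hu).trans h1)
        have hZm : ∃ u ∈ Z, ∃ v ∈ Z, c u = c a ∧ c v ≠ c a := by
          obtain ⟨u, hu, v, hv, huv⟩ := hm
          dsimp only at huv
          by_cases h1 : c u = c a
          · refine ⟨u, hu, v, hv, h1, fun h2 => huv ?_⟩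
            rw [if_pos h1, if_pos h2]
          · by_cases h2 : c v = c a
            · exact ⟨v, hv, u, hu, h2, h1⟩
            · exact absurd (by rw [if_neg h1, if_neg h2]) huv
        have hZm' : ∃ u ∈ Z', ∃ v ∈ Z', c u = c a ∧ c v ≠ c a := by
          obtain ⟨u, hu, v, hv, h1, h2⟩ := hZm
          have p0 := hp 0
          have p1 := hp 1
          have q0 : 0 < (Z.filter (fun v => (if c v = c a then (0 : Fin 2) else 1) = 0)).card :=
            card_pos.2 ⟨u, by rw [mem_filter, if_pos h1]; exact ⟨hu, rfl⟩⟩
          have q1 : 0 < (Z.filter (fun v => (if c v = c a then (0 : Fin 2) else 1) = 1)).card :=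
            card_pos.2 ⟨v, by rw [mem_filter, if_neg h2]; exact ⟨hv, rfl⟩⟩
          rw [p0] at q0
          rw [p1] at q1
          obtain ⟨u', hu'⟩ := card_pos.1 q0
          obtain ⟨v', hv'⟩ := card_pos.1 q1
          rw [mem_filter] at hu' hv'
          refine ⟨u', hu'.1, v', hv'.1, ?_, ?_⟩
          · by_contra hcon
            have h9 : (if c u' = c a then (0 : Fin 2) else 1) = 0 := hu'.2
            rw [if_neg hcon] at h9
            exact absurd h9 (by decide)
          · intro hcon
            have h9 : (if c v' = c a then (0 : Fin 2) else 1) = 1 := hv'.2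
            rw [if_pos hcon] at h9
            exact absurd h9 (by decide)
        exact ⟨fun h => absurd h (hnot Z hZm), fun h => absurd h (hnot Z' hZm')⟩
      · intro i
        fin_cases i
        · exact ⟨a, by simp [ha]⟩
        · exact ⟨b, by simp [hb, Ne.symm hab]⟩

/-- `2 m + 1` vertices contain three in one class -/
lemma classTriples_cov [Fintype V] {m : ℕ} (c : V → Fin m) (Y : Finset V)
    (hY : Y.card = 2 * m + 1) : ∃ Z ∈ classTriples c, Z ⊆ Y := by
  obtain ⟨i, -, hi⟩ := exists_lt_card_fiber_of_mul_lt_card_of_maps_to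
    (s := Y) (t := (univ : Finset (Fin m))) (f := c) (n := 2) (fun v _ => mem_univ _)
    (by rw [card_univ, Fintype.card_fin, hY]; omega)
  obtain ⟨Z, hZ, hZc⟩ := exists_subset_card_eq (show 3 ≤ (Y.filter (fun v => c v = i)).card by omega)
  refine ⟨Z, ?_, hZ.trans (filter_subset _ _)⟩
  unfold classTriples
  rw [mem_filter]
  refine ⟨mem_univ _, hZc, fun u hu v hv => ?_⟩
  rw [(mem_filter.1 (hZ hu)).2, (mem_filter.1 (hZ hv)).2]

/-- the number of triples inside `m` classes with `q` elements each -/
lemma card_classTriples {m q : ℕ} (c : V → Fin m) [Fintype V]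
    (hq : ∀ i, (univ.filter (fun v => c v = i)).card = q) :
    (classTriples c).card = m * q.choose 3 := by
  classical
  have h1 : classTriples c = univ.biUnion (fun i => powersetCard 3 (univ.filter (fun v => c v = i))) := by
    ext Z
    unfold classTriples
    simp only [mem_filter, mem_univ, true_and, mem_biUnion, mem_powersetCard]
    constructor
    · rintro ⟨hZ, h⟩
      obtain ⟨u, hu⟩ := card_pos.1 (by omega : 0 < Z.card)
      exact ⟨c u, fun v hv => by simp [h v hv u hu], hZ⟩
    · rintro ⟨i, hi, hZ⟩
      refine ⟨hZ, fun u hu v hv => ?_⟩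
      rw [(mem_filter.1 (hi hu)).2, (mem_filter.1 (hi hv)).2]
  rw [h1, card_biUnion]
  · simp_rw [card_powersetCard, hq]
    rw [sum_const, card_univ, Fintype.card_fin, smul_eq_mul]
  · intro i _ j _ hij
    refine Finset.disjoint_left.2 ?_
    intro Z hZ hZ'
    rw [mem_powersetCard] at hZ hZ'
    obtain ⟨u, hu⟩ := card_pos.1 (by omega : 0 < Z.card)
    exact hij ((mem_filter.1 (hZ.1 hu)).2.symm.trans (mem_filter.1 (hZ'.1 hu)).2)

end Pool.Agent.T2H11.HS
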