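import Pool.Agent.T2H11.HS.Prof
import Pool.Agent.T2H11.HS.Defs

set_option autoImplicit false

/-!
# One division step
-/

open Finset

namespace Pool.Agent.T2H11.HS

open Pool.Agent.R89.Cls (wt up sum_up mem_level sum_wt sum_choose)

variable {V : Type} [DecidableEq V] {ι : Type} [Fintype ι] [DecidableEq ι]

/-- the number of elements of `Z` in the class `A i` -/
def pr (A : ι → Finset V) (Z : Finset V) (i : ι) : ℕ := (Z ∩ A i).card

/-- the union of the classes -/
def un (A : ι → Finset V) : Finset V := univ.biUnion A

omit [DecidableEq ι] in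
lemma mem_un {A : ι → Finset V} {v : V} : v ∈ un A ↔ ∃ i, v ∈ A i := by
  simp [un]

lemma sum_pr {A : ι → Finset V} (hA : ∀ i j, i ≠ j → Disjoint (A i) (A j)) {Z : Finset V}
    (hZ : Z ⊆ un A) : ∑ i, pr A Z i = Z.card := by
  unfold pr
  rw [← card_biUnion]
  · congr 1
    ext v
    simp only [mem_biUnion, mem_univ, true_and, mem_inter]
    constructor
    · rintro ⟨i, h, -⟩
      exact h
    · intro h
      obtain ⟨i, hi⟩ := mem_un.1 (hZ h)
      exact ⟨i, h, hi⟩
  · intro i _ j _ hij
    exact (hA i j hij).mono inter_subset_right inter_subset_right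

omit [Fintype ι] in
lemma pr_insert {A : ι → Finset V} (hA : ∀ i j, i ≠ j → Disjoint (A i) (A j)) {Z : Finset V} {v : V}
    (hv : v ∉ Z) {i : ι} (hi : v ∈ A i) : pr A (insert v Z) = up (pr A Z) i := by
  ext j
  unfold pr up
  by_cases h : j = i
  · subst h
    rw [insert_inter_of_mem hi, card_insert_of_notMem (by simp [hv]), Function.update_self]
  · rw [insert_inter_of_notMem, Function.update_of_ne h]
    intro hj
    exact Finset.disjoint_left.1 (hA i j (Ne.symm h)) hi hj

lemma un_inter {A : ι → Finset V} (hA : ∀ i j, i ≠ j → Disjoint (A i) (A j)) {f : ι → Finset V}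
    (hf : ∀ i, f i ⊆ A i) (i : ι) : univ.biUnion f ∩ A i = f i := by
  ext v
  simp only [mem_inter, mem_biUnion, mem_univ, true_and]
  constructor
  · rintro ⟨⟨j, hj⟩, h⟩
    by_cases hji : j = i
    · rwa [← hji]
    · exact absurd h (Finset.disjoint_left.1 (hA j i hji) (hf j hj))
  · intro h
    exact ⟨⟨i, h⟩, hf i h⟩

/-- the subsets of the union with profile `x` -/
def withPr (A : ι → Finset V) (x : ι → ℕ) : Finset (Finset V) :=
  (un A).powerset.filter (fun Z => pr A Z = x)

lemma card_withPr {A : ι → Finset V} (hA : ∀ i j, i ≠ j → Disjoint (A i) (A j)) (x : ι → ℕ) :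
    ∏ i, (A i).card.choose (x i) ≤ (withPr A x).card := by
  have h1 : ∏ i, (A i).card.choose (x i) =
      (Fintype.piFinset (fun i => powersetCard (x i) (A i))).card := by
    rw [Fintype.card_piFinset]
    exact prod_congr rfl fun i _ => (card_powersetCard _ _).symm
  rw [h1]
  have hmem : ∀ f ∈ Fintype.piFinset (fun i => powersetCard (x i) (A i)), ∀ i, f i ⊆ A i :=
    fun f hf i => (mem_powersetCard.1 ((Fintype.mem_piFinset.1 hf) i)).1
  apply Finset.card_le_card_of_injOn (fun f => univ.biUnion f)
  · intro f hf
    rw [mem_coe] at hf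
    rw [mem_coe]
    unfold withPr
    rw [mem_filter, mem_powerset]
    refine ⟨fun v hv => ?_, ?_⟩
    · obtain ⟨i, -, hi⟩ := mem_biUnion.1 hv
      exact mem_un.2 ⟨i, hmem f hf i hi⟩
    · ext i
      unfold pr
      rw [un_inter hA (hmem f hf)]
      exact (mem_powersetCard.1 ((Fintype.mem_piFinset.1 hf) i)).2
  · intro f hf g hg hfg
    rw [mem_coe] at hf hg
    have hfg' : univ.biUnion f = univ.biUnion g := hfg
    ext1 i
    rw [← un_inter hA (hmem f hf) i, ← un_inter hA (hmem g hg) i, hfg']

lemma exists_withPr {A : ι → Finset V} (hA : ∀ i j, i ≠ j → Disjoint (A i) (A j)) {x : ι → ℕ}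
    (hx : ∀ i, x i ≤ (A i).card) : ∃ Z, Z ∈ withPr A x := by
  have h := card_withPr hA x
  have h2 : 0 < ∏ i, (A i).card.choose (x i) := prod_pos fun i _ => Nat.choose_pos (hx i)
  exact card_pos.1 (lt_of_lt_of_le h2 h)

/-- the number of `t`-multisets of an `m`-set -/
noncomputable def M (t m : ℕ) : ℝ := ((m + t - 1).choose t : ℝ)

/-- the members of `F` inside `W` and the `t`-multisets on `W` which are not sets -/
noncomputable def val (t : ℕ) (F : Finset (Finset V)) (W : Finset V) : ℝ :=
  ((inside F W).card : ℝ) + (M t W.card - (W.card.choose t : ℝ))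

theorem split_bound [Nonempty ι] {t : ℕ} (ht : 2 ≤ t) (A : ι → Finset V)
    (hne : ∀ i, (A i).Nonempty) (hA : ∀ i j, i ≠ j → Disjoint (A i) (A j))
    (F : Finset (Finset V)) (hF : ∀ Z ∈ F, Z.card = t) (hcov : Covers F (t + 1) (un A))
    (hu : ∀ Z Z' : Finset V, Z ⊆ un A → Z' ⊆ un A → Z.card = t → Z'.card = t →
      (∀ i, ¬ Z ⊆ A i) → pr A Z = pr A Z' → Z ∈ F → Z' ∈ F)
    {κ : ℝ} (hκ : 0 ≤ κ) (hκr : κ * Fintype.card ι ≤ 1)
    (hbase : ∀ i, κ * M t (A i).card ≤ val t F (A i)) :
    κ * M t (un A).card ≤ val t F (un A) := by
  classical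
  set m : ι → ℕ := fun i => (A i).card with hm
  have hm1 : ∀ i, 1 ≤ m i := fun i => card_pos.2 (hne i)
  have hsum : ∑ i, m i = (un A).card := by
    rw [hm, un, card_biUnion]
    intro i _ j _ hij
    exact hA i j hij
  set n := (un A).card with hn
  have hn1 : 1 ≤ n := by
    obtain ⟨i⟩ := ‹Nonempty ι›
    have := Finset.single_le_sum (fun j _ => Nat.zero_le (m j)) (mem_univ i)
    rw [hsum] at this
    exact (hm1 i).trans this
  set b : (ι → ℕ) → ℝ := fun x => ∏ i, ((m i).choose (x i) : ℝ) with hb
  set w : (ι → ℕ) → ℝ := wt (fun i => m i - 1) with hw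
  have hMw : ∑ x ∈ piAntidiag univ t, w x = M t n := by
    rw [hw, sum_wt m t hm1, hsum, PowerSeries.invOneSubPow_val_eq_mk_sub_one_add_choose_of_pos ℝ n hn1,
      PowerSeries.coeff_mk]
    unfold M
    have : n - 1 + t = n + t - 1 := by omega
    rw [← this, Nat.choose_symm_add]
  have hMb : ∑ x ∈ piAntidiag univ t, b x = (n.choose t : ℝ) := by
    rw [hb, sum_choose m t, hsum]
  have hbw : ∀ x, b x ≤ w x := by
    intro x
    rw [hb, hw]
    unfold wt
    refine prod_le_prod (fun i _ => by positivity) fun i _ => ?_
    rcases Nat.eq_zero_or_pos (x i) with h | h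
    · rw [h]
      simp
    · have h1 := hm1 i
      exact_mod_cast Nat.choose_le_choose (x i) (show m i ≤ m i - 1 + x i by omega)
  have hwpos : ∀ x, 0 < w x := by
    intro x
    rw [hw]
    unfold wt
    refine prod_pos fun i _ => ?_
    exact_mod_cast Nat.choose_pos (by omega)
  set φ : (ι → ℕ) → ℕ := fun x => ((inside F (un A)).filter (fun Z => pr A Z = x)).card with hφ
  set f : (ι → ℕ) → ℝ := fun x => (φ x : ℝ) + (w x - b x) with hf
  set d : (ι → ℕ) → ℝ := fun x => f x / w x with hd
  have hf0 : ∀ x, 0 ≤ f x := by
    intro x
    have h1 := hbw x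
    have h2 : (0 : ℝ) ≤ φ x := by positivity
    simp only [hf]
    linarith
  have hd0 : ∀ x, 0 ≤ d x := fun x => div_nonneg (hf0 x) (hwpos x).le
  have hdw : ∀ x, d x * w x = f x := fun x => div_mul_cancel₀ _ (hwpos x).ne'
  have hd1 : ∀ x, b x ≤ φ x → 1 ≤ d x := by
    intro x hx
    rw [hd, le_div_iff₀ (hwpos x)]
    simp only [hf]
    linarith
  -- complete profiles
  have hfull : ∀ x, (∀ Z ∈ withPr A x, Z ∈ F) → 1 ≤ d x := by
    intro x hx
    apply hd1
    have h1 := card_withPr hA x
    have h2 : withPr A x ⊆ (inside F (un A)).filter (fun Z => pr A Z = x) := by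
      intro Z hZ
      have h3 := hx Z hZ
      unfold withPr at hZ
      rw [mem_filter, mem_powerset] at hZ
      unfold inside
      rw [mem_filter, mem_filter]
      exact ⟨⟨h3, hZ.1⟩, hZ.2⟩
    have h3 := h1.trans (card_le_card h2)
    have h4 : ((∏ i, (A i).card.choose (x i) : ℕ) : ℝ) ≤
        (((inside F (un A)).filter (fun Z => pr A Z = x)).card : ℝ) := by exact_mod_cast h3
    rw [Nat.cast_prod] at h4
    exact h4
  have hsumf : ∑ x ∈ piAntidiag univ t, f x = val t F (un A) := by
    simp only [hf]
    rw [sum_add_distrib, sum_sub_distrib, hMw, hMb]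
    unfold val
    rw [← hn]
    congr 1
    rw [← Nat.cast_sum]
    congr 1
    symm
    refine card_eq_sum_card_fiberwise (f := pr A) ?_
    intro Z hZ
    rw [mem_coe] at hZ ⊢
    unfold inside at hZ
    rw [mem_filter] at hZ
    rw [mem_level, sum_pr hA hZ.2]
    exact hF Z hZ.1
  have hmain := profile_bound' (fun i => m i - 1) t d hd0 hκ hκr ?_ ?_
  · rw [← hw, hMw] at hmain
    simp_rw [hdw] at hmain
    rwa [hsumf] at hmain
  · -- covering
    intro y hy hns
    rw [mem_level] at hy
    have hdown_pr : ∀ (Y : Finset V) (v : V) (i : ι), v ∈ Y → v ∈ A i → pr A Y = y →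
        pr A (Y.erase v) = down y i ∧ 1 ≤ y i := by
      intro Y v i hv hvi hY
      have h1 := pr_insert hA (notMem_erase v Y) hvi
      rw [insert_erase hv, hY] at h1
      constructor
      · rw [h1, down_up]
      · rw [h1, up_self]; omega
    by_contra hcon
    push Not at hcon
    -- no member with two classes
    have hno : ∀ i, 1 ≤ y i → (∀ j, down y i ≠ Pi.single j t) → ∀ Z ∈ withPr A (down y i), Z ∉ F := by
      intro i hi hj Z hZ hZF
      have h1 := hcon i hi
      have h2 : 1 ≤ d (down y i) := by
        apply hfull
        intro Z' hZ'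
        unfold withPr at hZ hZ'
        rw [mem_filter, mem_powerset] at hZ hZ'
        have hc : Z'.card = t := by
          rw [← sum_pr hA hZ'.1, hZ'.2, ← hZ.2, sum_pr hA hZ.1]
          exact hF Z hZF
        refine hu Z Z' hZ.1 hZ'.1 (hF Z hZF) hc ?_ (hZ.2.trans hZ'.2.symm) hZF
        intro j hZj
        apply hj j
        rw [← hZ.2]
        ext k
        unfold pr
        by_cases hkj : k = j
        · subst hkj
          rw [Pi.single_eq_same, inter_eq_left.2 hZj]
          exact hF Z hZF
        · rw [Pi.single_eq_of_ne hkj, card_eq_zero]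
          rw [← Finset.disjoint_iff_inter_eq_empty]
          exact (hA j k (Ne.symm hkj)).mono_left hZj
      linarith
    by_cases hle : ∀ i, y i ≤ m i
    · obtain ⟨Y, hY⟩ := exists_withPr hA hle
      unfold withPr at hY
      rw [mem_filter, mem_powerset] at hY
      have hYc : Y.card = t + 1 := by rw [← sum_pr hA hY.1, hY.2, hy]
      -- the pattern of the exceptional profile
      have hex : ∃ i j, i ≠ j ∧ y = up (Pi.single j t) i := by
        obtain ⟨Z, hZ, hZY⟩ := hcov Y hY.1 hYc
        have hZc := hF Z hZ
        obtain ⟨v, hv, hvZ⟩ : ∃ v ∈ Y, v ∉ Z := by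
          by_contra h
          push Not at h
          have := card_le_card h
          omega
        obtain ⟨i, hi⟩ := mem_un.1 (hY.1 hv)
        obtain ⟨h1, h2⟩ := hdown_pr Y v i hv hi hY.2
        have hZe : Z = Y.erase v := by
          apply eq_of_subset_of_card_le
          · intro u hu
            exact mem_erase.2 ⟨fun h => hvZ (h ▸ hu), hZY hu⟩
          · rw [card_erase_of_mem hv]
            omega
        by_contra hcon2
        push Not at hcon2
        refine hno i h2 ?_ Z ?_ hZ
        · intro j hj
          have h3 : y = up (Pi.single j t) i := by rw [← hj, up_down h2]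
          by_cases hij : i = j
          · subst hij
            apply hns i
            rw [h3]
            unfold up
            rw [Pi.single_eq_same]
            ext k
            by_cases hk : k = i
            · subst hk
              rw [Function.update_self, Pi.single_eq_same]
            · rw [Function.update_of_ne hk, Pi.single_eq_of_ne hk, Pi.single_eq_of_ne hk]
          · exact hcon2 i j hij h3
        · unfold withPr
          rw [mem_filter, mem_powerset]
          exact ⟨hZY.trans hY.1, by rw [hZe, h1]⟩
      obtain ⟨i, j, hij, hyij⟩ := hex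
      have hyi : y i = 1 := by
        rw [hyij, up_self, Pi.single_eq_of_ne hij]
      have hyj : y j = t := by
        rw [hyij]
        unfold up
        rw [Function.update_of_ne (Ne.symm hij), Pi.single_eq_same]
      have hdi : down y i = Pi.single j t := by rw [hyij, down_up]
      have h1 := hcon i (by omega)
      have h2 : 1 ≤ d (down y i) := by
        apply hfull
        intro Z' hZ'
        rw [hdi] at hZ'
        unfold withPr at hZ'
        rw [mem_filter, mem_powerset] at hZ'
        -- `Z'` lies in the class `j`
        have hZj : Z' ⊆ A j := by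
          intro v hv
          obtain ⟨k, hk⟩ := mem_un.1 (hZ'.1 hv)
          by_cases hkj : k = j
          · rwa [← hkj]
          · exfalso
            have h3 := congrFun hZ'.2 k
            rw [Pi.single_eq_of_ne hkj] at h3
            unfold pr at h3
            rw [card_eq_zero] at h3
            have : v ∈ Z' ∩ A k := mem_inter.2 ⟨hv, hk⟩
            rw [h3] at this
            exact absurd this (notMem_empty v)
        have hZc : Z'.card = t := by
          rw [← sum_pr hA hZ'.1, hZ'.2, Finset.sum_pi_single']
          simp
        obtain ⟨a, ha⟩ := hne i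
        have haZ : a ∉ Z' := fun h => Finset.disjoint_left.1 (hA i j hij) ha (hZj h)
        have hYs : insert a Z' ⊆ un A := by
          intro v hv
          rcases mem_insert.1 hv with rfl | hv
          · exact mem_un.2 ⟨i, ha⟩
          · exact hZ'.1 hv
        have hYpr : pr A (insert a Z') = y := by
          rw [pr_insert hA haZ ha, hZ'.2, hyij]
        obtain ⟨Z, hZ, hZY⟩ := hcov (insert a Z') hYs (by rw [card_insert_of_notMem haZ, hZc])
        have hZc2 := hF Z hZ
        obtain ⟨v, hv, hvZ⟩ : ∃ v ∈ insert a Z', v ∉ Z := by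
          by_contra h
          push Not at h
          have := card_le_card h
          rw [card_insert_of_notMem haZ] at this
          omega
        have hZe : Z = (insert a Z').erase v := by
          apply eq_of_subset_of_card_le
          · intro u hu
            exact mem_erase.2 ⟨fun h => hvZ (h ▸ hu), hZY hu⟩
          · rw [card_erase_of_mem hv, card_insert_of_notMem haZ]
            omega
        rcases mem_insert.1 hv with hva | hvZ'
        · rw [hva, erase_insert haZ] at hZe
          rw [← hZe]
          exact hZ
        · exfalso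
          have h3 := hdown_pr (insert a Z') v j hv (hZj hvZ') hYpr
          refine hno j (by omega) ?_ Z ?_ hZ
          · intro k hk
            have h4 := congrFun hk i
            have h5 := congrFun hk j
            unfold down at h4 h5
            rw [Function.update_of_ne hij, hyi] at h4
            rw [Function.update_self, hyj] at h5
            by_cases hki : k = i
            · subst hki
              rw [Pi.single_eq_of_ne (Ne.symm hij)] at h5
              omega
            · rw [Pi.single_eq_of_ne (Ne.symm hki)] at h4
              omega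
          · unfold withPr
            rw [mem_filter, mem_powerset]
            exact ⟨hZY.trans hYs, by rw [hZe, h3.1]⟩
      linarith
    · push Not at hle
      obtain ⟨i, hi⟩ := hle
      obtain ⟨k, hki, hk⟩ : ∃ k, k ≠ i ∧ 1 ≤ y k := by
        by_contra h
        push Not at h
        apply hns i
        have h0 : ∀ k, k ≠ i → y k = 0 := fun k hk => by have := h k hk; omega
        have hyi : y i = t + 1 := by
          rw [← hy]
          symm
          exact Finset.sum_eq_single_of_mem i (mem_univ i) fun k _ hk => h0 k hk
        ext k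
        by_cases hk : k = i
        · subst hk
          rw [Pi.single_eq_same, hyi]
        · rw [Pi.single_eq_of_ne hk, h0 k hk]
      have h1 := hcon k hk
      have h2 : 1 ≤ d (down y k) := by
        apply hd1
        have : b (down y k) = 0 := by
          rw [hb]
          apply prod_eq_zero (mem_univ i)
          unfold down
          rw [Function.update_of_ne (Ne.symm hki), Nat.choose_eq_zero_of_lt hi, Nat.cast_zero]
        rw [this]
        positivity
      linarith
  · -- classes
    intro i
    rw [hd, le_div_iff₀ (hwpos _)]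
    have h1 := hbase i
    have hwi : w (Pi.single i t) = M t (A i).card := by
      rw [hw]
      unfold wt M
      rw [Finset.prod_eq_single_of_mem i (mem_univ i)]
      · rw [Pi.single_eq_same]
        have h3 := hm1 i
        have h4 : m i - 1 + t = (A i).card + t - 1 := by
          have : m i = (A i).card := rfl
          omega
        simp only [h4]
      · intro j _ hj
        rw [Pi.single_eq_of_ne hj]
        simp
    have hbi : b (Pi.single i t) = ((A i).card.choose t : ℝ) := by
      rw [hb]
      simp only
      rw [Finset.prod_eq_single_of_mem i (mem_univ i)]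
      · rw [Pi.single_eq_same]
      · intro j _ hj
        rw [Pi.single_eq_of_ne hj]
        simp
    have hφi : (inside F (A i)).card ≤ φ (Pi.single i t) := by
      rw [hφ]
      refine card_le_card fun Z hZ => ?_
      unfold inside at hZ ⊢
      rw [mem_filter] at hZ
      rw [mem_filter, mem_filter]
      refine ⟨⟨hZ.1, hZ.2.trans fun v hv => mem_un.2 ⟨i, hv⟩⟩, ?_⟩
      ext k
      unfold pr
      by_cases hk : k = i
      · subst hk
        rw [Pi.single_eq_same, inter_eq_left.2 hZ.2]
        exact hF Z hZ.1
      · rw [Pi.single_eq_of_ne hk, card_eq_zero, ← Finset.disjoint_iff_inter_eq_empty]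
        exact (hA i k (Ne.symm hk)).mono_left hZ.2
    have hφi' : ((inside F (A i)).card : ℝ) ≤ φ (Pi.single i t) := by exact_mod_cast hφi
    rw [hwi]
    simp only [hf]
    rw [hwi, hbi]
    unfold val at h1
    linarith

end Pool.Agent.T2H11.HS
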