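import Pool.Agent.T2H11.HS.Main

set_option autoImplicit false

/-!
# Turán's bound for `T(n,k,3)` and uniform divisions into two classes
-/

open Finset

namespace Pool.Agent.T2H11.HS

/-! ## Inequalities -/

/-- two independent classes -/
lemma ineq_join {a b p q s x y : ℝ} (ha : 0 ≤ a) (hb : 0 ≤ b) (hp : 0 < p) (hq : 0 < q)
    (hs : p + q ≤ s) (hx : 4 * a ^ 3 ≤ p ^ 2 * x) (hy : 4 * b ^ 3 ≤ q ^ 2 * y) :
    4 * (a + b) ^ 3 ≤ s ^ 2 * (x + y) := by
  obtain ⟨u, rfl⟩ : ∃ u, a = p * u := ⟨a / p, by field_simp⟩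
  obtain ⟨v, rfl⟩ : ∃ v, b = q * v := ⟨b / q, by field_simp⟩
  have hu : 0 ≤ u := nonneg_of_mul_nonneg_right ha hp
  have hv : 0 ≤ v := nonneg_of_mul_nonneg_right hb hq
  have hx' : 4 * p * u ^ 3 ≤ x := by
    have : p ^ 2 * (4 * p * u ^ 3) ≤ p ^ 2 * x := by nlinarith
    exact le_of_mul_le_mul_left this (by positivity)
  have hy' : 4 * q * v ^ 3 ≤ y := by
    have : q ^ 2 * (4 * q * v ^ 3) ≤ q ^ 2 * y := by nlinarith
    exact le_of_mul_le_mul_left this (by positivity)
  have h1 : (p + q) ^ 2 ≤ s ^ 2 := by nlinarith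
  have hxy : 0 ≤ x + y := by
    have h2 : 0 ≤ 4 * p * u ^ 3 := by positivity
    have h3 : 0 ≤ 4 * q * v ^ 3 := by positivity
    linarith
  have h2 : (p + q) ^ 2 * (x + y) ≤ s ^ 2 * (x + y) := mul_le_mul_of_nonneg_right h1 hxy
  refine le_trans ?_ h2
  have h3 : (p + q) ^ 2 * (4 * p * u ^ 3 + 4 * q * v ^ 3) ≤ (p + q) ^ 2 * (x + y) :=
    mul_le_mul_of_nonneg_left (by linarith) (by positivity)
  refine le_trans ?_ h3
  have key : (p + q) ^ 2 * (4 * p * u ^ 3 + 4 * q * v ^ 3) - 4 * (p * u + q * v) ^ 3 =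
      4 * (p * q * (p * ((u - v) ^ 2 * (2 * u + v)) + q * ((u - v) ^ 2 * (u + 2 * v)))) := by ring
  have h4 : 0 ≤ 4 * (p * q * (p * ((u - v) ^ 2 * (2 * u + v)) + q * ((u - v) ^ 2 * (u + 2 * v)))) := by
    positivity
  linarith

/-- one class is complete to the other one in one direction -/
lemma ineq_semi {a b s x y : ℝ} (ha : 0 ≤ a) (hb : 0 ≤ b) (hs : 3 ≤ s)
    (hx : 4 * a ^ 3 ≤ s ^ 2 * x) (hy : 4 * b ^ 3 ≤ (s - 1) ^ 2 * y) :
    4 * (a + b) ^ 3 ≤ s ^ 2 * (x + y + 3 * a ^ 2 * b) := by
  have hs1 : 0 < (s - 1) ^ 2 := by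
    have : 0 < s - 1 := by linarith
    positivity
  have hs2 : 0 < 3 * (s ^ 2 - 4) := by nlinarith
  -- the quadratic form
  have hP : 0 ≤ 3 * (s ^ 2 - 4) * (s - 1) ^ 2 * a ^ 2 - 12 * (s - 1) ^ 2 * (a * b) +
      4 * (2 * s - 1) * b ^ 2 := by
    have h1 : 0 ≤ (s ^ 2 - 4) * (2 * s - 1) - 3 * (s - 1) ^ 2 := by nlinarith [sq_nonneg (s - 3)]
    have h2 : 0 ≤ 3 * (s ^ 2 - 4) * (3 * (s ^ 2 - 4) * (s - 1) ^ 2 * a ^ 2 -
        12 * (s - 1) ^ 2 * (a * b) + 4 * (2 * s - 1) * b ^ 2) := by
      have e : 3 * (s ^ 2 - 4) * (3 * (s ^ 2 - 4) * (s - 1) ^ 2 * a ^ 2 -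
          12 * (s - 1) ^ 2 * (a * b) + 4 * (2 * s - 1) * b ^ 2) =
          (3 * (s ^ 2 - 4) * (s - 1) * a - 6 * (s - 1) * b) ^ 2 +
          12 * b ^ 2 * ((s ^ 2 - 4) * (2 * s - 1) - 3 * (s - 1) ^ 2) := by ring
      rw [e]
      have : 0 ≤ 12 * b ^ 2 := by positivity
      have h3 := mul_nonneg this h1
      nlinarith [sq_nonneg (3 * (s ^ 2 - 4) * (s - 1) * a - 6 * (s - 1) * b)]
    exact nonneg_of_mul_nonneg_right h2 hs2
  have hbP := mul_nonneg hb hP
  -- multiply by `(s-1)^2`
  have h5 : (s - 1) ^ 2 * (4 * (a + b) ^ 3) ≤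
      (s - 1) ^ 2 * (s ^ 2 * (x + y + 3 * a ^ 2 * b)) := by
    have h6 : (s - 1) ^ 2 * (4 * a ^ 3) ≤ (s - 1) ^ 2 * (s ^ 2 * x) :=
      mul_le_mul_of_nonneg_left hx hs1.le
    have h7 : s ^ 2 * (4 * b ^ 3) ≤ s ^ 2 * ((s - 1) ^ 2 * y) :=
      mul_le_mul_of_nonneg_left hy (by positivity)
    have e1 : (s - 1) ^ 2 * (s ^ 2 * (x + y + 3 * a ^ 2 * b)) = (s - 1) ^ 2 * (s ^ 2 * x) +
        s ^ 2 * ((s - 1) ^ 2 * y) + 3 * (s - 1) ^ 2 * s ^ 2 * a ^ 2 * b := by ring
    have e2 : (s - 1) ^ 2 * (4 * a ^ 3) + s ^ 2 * (4 * b ^ 3) +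
        3 * (s - 1) ^ 2 * s ^ 2 * a ^ 2 * b - (s - 1) ^ 2 * (4 * (a + b) ^ 3) =
        b * (3 * (s ^ 2 - 4) * (s - 1) ^ 2 * a ^ 2 - 12 * (s - 1) ^ 2 * (a * b) +
      4 * (2 * s - 1) * b ^ 2) := by ring
    linarith
  exact le_of_mul_le_mul_left h5 hs1

/-! ## Sets -/

variable {V : Type} [DecidableEq V]

/-- six times the number of the members of `F` and of the degenerate triples inside `W` -/
def g (F : Finset (Finset V)) (W : Finset V) : ℝ :=
  6 * ((inside F W).card : ℝ) + 3 * (W.card : ℝ) ^ 2 - 2 * (W.card : ℝ)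

/-- Turán's bound for all numbers `k = s + 1` inside `W` -/
def TuranThree (F : Finset (Finset V)) (W : Finset V) : Prop :=
  ∀ s : ℕ, Covers F (s + 1) W → 4 * (W.card : ℝ) ^ 3 ≤ (s : ℝ) ^ 2 * g F W

/-- `I` contains no member of `F` -/
def Indep (F : Finset (Finset V)) (I : Finset V) : Prop := ∀ Z ∈ F, ¬ Z ⊆ I

lemma covers_of_max {F : Finset (Finset V)} (W : Finset V) (h3 : ∀ Z ∈ F, Z.card = 3)
    (hW : W.Nonempty) :
    ∃ p, 1 ≤ p ∧ Covers F (p + 1) W ∧ ∃ I ⊆ W, Indep F I ∧ I.card = p := by
  classical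
  set S := W.powerset.filter (fun I => Indep F I) with hS
  obtain ⟨v, hv⟩ := hW
  have hSv : {v} ∈ S := by
    rw [hS, mem_filter, mem_powerset]
    refine ⟨singleton_subset_iff.2 hv, fun Z hZ hZv => ?_⟩
    have := card_le_card hZv
    rw [h3 Z hZ, card_singleton] at this
    omega
  obtain ⟨I, hI, hmax⟩ := exists_max_image S card ⟨_, hSv⟩
  have h1 := hmax _ hSv
  rw [card_singleton] at h1
  rw [hS, mem_filter, mem_powerset] at hI
  refine ⟨I.card, h1, ?_, I, hI.1, hI.2, rfl⟩
  intro Y hY hYc
  by_contra hcon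
  push Not at hcon
  have : Y ∈ S := by
    rw [hS, mem_filter, mem_powerset]
    exact ⟨hY, fun Z hZ hZY => hcon Z hZ hZY⟩
  have := hmax Y this
  omega

lemma card_le_of_covers {F : Finset (Finset V)} {W I : Finset V} {s : ℕ} (hc : Covers F (s + 1) W)
    (hI : I ⊆ W) (hind : Indep F I) : I.card ≤ s := by
  by_contra hcon
  push Not at hcon
  obtain ⟨Y, hY, hYc⟩ := exists_subset_card_eq (show s + 1 ≤ I.card by omega)
  obtain ⟨Z, hZ, hZY⟩ := hc Y (hY.trans hI) hYc
  exact hind Z hZ (hZY.trans hY)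

/-- the triples with two elements in `A` and one in `B` -/
def two (A B : Finset V) : Finset (Finset V) :=
  ((powersetCard 2 A) ×ˢ B).image (fun q => insert q.2 q.1)

lemma mem_two {A B : Finset V} (hd : Disjoint A B) {Z : Finset V} :
    Z ∈ two A B ↔ Z ⊆ A ∪ B ∧ (Z ∩ A).card = 2 ∧ (Z ∩ B).card = 1 := by
  unfold two
  rw [mem_image]
  constructor
  · rintro ⟨⟨P, v⟩, hq, rfl⟩
    rw [mem_product, mem_powersetCard] at hq
    obtain ⟨⟨hP, hPc⟩, hv⟩ := hq
    have hvA : v ∉ A := fun h => Finset.disjoint_left.1 hd h hv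
    refine ⟨?_, ?_, ?_⟩
    · intro w hw
      rcases mem_insert.1 hw with rfl | hw
      · exact mem_union_right _ hv
      · exact mem_union_left _ (hP hw)
    · rw [insert_inter_of_notMem hvA, inter_eq_left.2 hP, hPc]
    · rw [insert_inter_of_mem hv]
      have : P ∩ B = ∅ := by
        rw [← Finset.disjoint_iff_inter_eq_empty]
        exact hd.mono_left hP
      rw [this]
      simp
  · rintro ⟨h1, h2, h3⟩
    obtain ⟨v, hv⟩ := card_eq_one.1 h3
    have hvZ : v ∈ Z ∩ B := by rw [hv]; simp
    rw [mem_inter] at hvZ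
    refine ⟨(Z ∩ A, v), ?_, ?_⟩
    · rw [mem_product, mem_powersetCard]
      exact ⟨⟨inter_subset_right, h2⟩, hvZ.2⟩
    · ext w
      rw [mem_insert, mem_inter]
      constructor
      · rintro (rfl | h)
        · exact hvZ.1
        · exact h.1
      · intro hw
        rcases mem_union.1 (h1 hw) with h | h
        · exact Or.inr ⟨hw, h⟩
        · left
          have : w ∈ Z ∩ B := mem_inter.2 ⟨hw, h⟩
          rw [hv, mem_singleton] at this
          exact this

lemma card_two {A B : Finset V} (hd : Disjoint A B) :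
    ((two A B).card : ℝ) = (A.card : ℝ) * (A.card - 1) / 2 * B.card := by
  unfold two
  rw [card_image_of_injOn, card_product, card_powersetCard, Nat.cast_mul, Nat.cast_choose_two]
  rintro ⟨P, v⟩ h1 ⟨Q, w⟩ h2 h
  rw [mem_coe, mem_product, mem_powersetCard] at h1 h2
  obtain ⟨⟨hP, -⟩, hv⟩ := h1
  obtain ⟨⟨hQ, -⟩, hw⟩ := h2
  have h' : insert v P = insert w Q := h
  dsimp only at hP hQ hv hw
  have hvA : v ∉ A := fun h => Finset.disjoint_left.1 hd h hv
  have hwA : w ∉ A := fun h => Finset.disjoint_left.1 hd h hw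
  have e1 : P = Q := by
    have h3 : insert v P ∩ A = insert w Q ∩ A := by rw [h']
    rwa [insert_inter_of_notMem hvA, insert_inter_of_notMem hwA, inter_eq_left.2 hP,
      inter_eq_left.2 hQ] at h3
  have e2 : v = w := by
    have h3 : v ∈ insert w Q := by rw [← h']; exact mem_insert_self _ _
    rcases mem_insert.1 h3 with h | h
    · exact h
    · exact absurd (hQ h) hvA
  rw [e1, e2]

/-- counting -/
lemma g_union {F : Finset (Finset V)} {A B : Finset V} (hd : Disjoint A B)
    (h3 : ∀ Z ∈ F, Z.card = 3) (S : Finset (Finset V)) (hS : S ⊆ inside F (A ∪ B))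
    (hSA : ∀ Z ∈ S, ¬ Z ⊆ A ∧ ¬ Z ⊆ B) :
    g F A + g F B + 6 * A.card * B.card + 6 * S.card ≤ g F (A ∪ B) := by
  have h1 : (inside F A).card + (inside F B).card + S.card ≤ (inside F (A ∪ B)).card := by
    have d1 : Disjoint (inside F A) (inside F B) := by
      rw [Finset.disjoint_left]
      intro Z hZ hZ'
      unfold inside at hZ hZ'
      rw [mem_filter] at hZ hZ'
      have h5 : Z ⊆ A ∩ B := subset_inter hZ.2 hZ'.2
      rw [Finset.disjoint_iff_inter_eq_empty.1 hd] at h5
      have := card_le_card h5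
      rw [h3 Z hZ.1, card_empty] at this
      omega
    have d2 : Disjoint (inside F A ∪ inside F B) S := by
      rw [Finset.disjoint_left]
      intro Z hZ hZ'
      unfold inside at hZ
      rw [mem_union, mem_filter, mem_filter] at hZ
      rcases hZ with h | h
      · exact (hSA Z hZ').1 h.2
      · exact (hSA Z hZ').2 h.2
    rw [← card_union_of_disjoint d1, ← card_union_of_disjoint d2]
    refine card_le_card ?_
    intro Z hZ
    rw [mem_union, mem_union] at hZ
    rcases hZ with (h | h) | h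
    · unfold inside at h ⊢
      rw [mem_filter] at h ⊢
      exact ⟨h.1, h.2.trans subset_union_left⟩
    · unfold inside at h ⊢
      rw [mem_filter] at h ⊢
      exact ⟨h.1, h.2.trans subset_union_right⟩
    · exact hS h
  have h2 : (A ∪ B).card = A.card + B.card := card_union_of_disjoint hd
  unfold g
  rw [h2]
  have h1' : ((inside F A).card : ℝ) + (inside F B).card + S.card ≤ (inside F (A ∪ B)).card := by
    exact_mod_cast h1
  push_cast
  nlinarith

lemma g_single {F : Finset (Finset V)} (h3 : ∀ Z ∈ F, Z.card = 3) {A : Finset V}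
    (hA : A.card = 1) : g F A = 1 := by
  have h1 : inside F A = ∅ := by
    rw [← not_nonempty_iff_eq_empty]
    rintro ⟨Z, hZ⟩
    unfold inside at hZ
    rw [mem_filter] at hZ
    have := card_le_card hZ.2
    rw [h3 Z hZ.1, hA] at this
    omega
  unfold g
  rw [h1, hA, card_empty]
  norm_num

/-- Two disjoint sets whose mixed triples are judged by the numbers of elements only. -/
def UniformPair (F : Finset (Finset V)) (A B : Finset V) : Prop :=
  (∀ Z Z', Z ∈ two A B → Z' ∈ two A B → Z ∈ F → Z' ∈ F) ∧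
  (∀ Z Z', Z ∈ two B A → Z' ∈ two B A → Z ∈ F → Z' ∈ F)

/-- independent sets with at most one element in `A` -/
lemma indep_insert {F : Finset (Finset V)} {A B I : Finset V} (hd : Disjoint A B)
    (h3 : ∀ Z ∈ F, Z.card = 3) (hno : ∀ Z ∈ two B A, Z ∉ F) (hI : I ⊆ B) (hind : Indep F I) {a : V}
    (ha : a ∈ A) : Indep F (insert a I) := by
  intro Z hZ hZI
  by_cases haZ : a ∈ Z
  · refine hno Z ?_ hZ
    rw [mem_two hd.symm]
    have h1 : Z.erase a ⊆ I := by
      intro v hv
      rw [mem_erase] at hv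
      rcases mem_insert.1 (hZI hv.2) with h | h
      · exact absurd h hv.1
      · exact h
    have h2 : Z ∩ A = {a} := by
      ext v
      rw [mem_inter, mem_singleton]
      constructor
      · rintro ⟨h4, h5⟩
        by_contra hva
        exact Finset.disjoint_left.1 hd h5 (hI (h1 (mem_erase.2 ⟨hva, h4⟩)))
      · rintro rfl
        exact ⟨haZ, ha⟩
    have h4 : Z ∩ B = Z.erase a := by
      ext v
      rw [mem_inter, mem_erase]
      constructor
      · rintro ⟨h5, h6⟩
        refine ⟨?_, h5⟩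
        rintro rfl
        exact Finset.disjoint_left.1 hd ha h6
      · rintro ⟨h5, h6⟩
        exact ⟨h6, hI (h1 (mem_erase.2 ⟨h5, h6⟩))⟩
    refine ⟨?_, ?_, ?_⟩
    · intro v hv
      rw [mem_union]
      by_cases hva : v = a
      · right; rwa [hva]
      · left; exact hI (h1 (mem_erase.2 ⟨hva, hv⟩))
    · rw [h4, card_erase_of_mem haZ, h3 Z hZ]
    · rw [h2, card_singleton]
  · refine hind Z hZ fun v hv => ?_
    rcases mem_insert.1 (hZI hv) with h | h
    · exact absurd (h ▸ hv) haZ
    · exact h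

/-- the case where the triples with two elements in `A` and one in `B` are members -/
lemma split_semi {F : Finset (Finset V)} {A B : Finset V} (hd : Disjoint A B)
    (h3 : ∀ Z ∈ F, Z.card = 3) (hA2 : 2 ≤ A.card) (hB : B.Nonempty)
    (hall : ∀ Z ∈ two A B, Z ∈ F) (hno : ∀ Z ∈ two B A, Z ∉ F)
    (hTA : TuranThree F A) (hTB : 2 ≤ B.card → TuranThree F B) : TuranThree F (A ∪ B) := by
  intro s hs
  have hsA : Covers F (s + 1) A := hs.mono subset_union_left
  have h1 := hTA s hsA
  obtain ⟨q, hq1, hqc, I, hI, hind, hIq⟩ := covers_of_max (F := F) B h3 hB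
  obtain ⟨a, ha⟩ : A.Nonempty := card_pos.1 (by omega)
  have haI : a ∉ I := fun h => Finset.disjoint_left.1 hd ha (hI h)
  have hqs : q + 1 ≤ s := by
    have h5 := card_le_of_covers hs (I := insert a I) ?_ (indep_insert hd h3 hno hI hind ha)
    · rw [card_insert_of_notMem haI, hIq] at h5
      exact h5
    · intro v hv
      rcases mem_insert.1 hv with rfl | hv
      · exact mem_union_left _ ha
      · exact mem_union_right _ (hI hv)
  have hg := g_union hd h3 (two A B) ?_ ?_
  · rw [card_two hd] at hg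
    have hc : (A ∪ B).card = A.card + B.card := card_union_of_disjoint hd
    rw [hc]
    push_cast
    have hA0 : (2 : ℝ) ≤ A.card := by exact_mod_cast hA2
    have hB0 : (1 : ℝ) ≤ B.card := by exact_mod_cast card_pos.2 hB
    have hs2 : (2 : ℝ) ≤ s := by
      have : 2 ≤ s := by omega
      exact_mod_cast this
    have hss : (0 : ℝ) ≤ (s : ℝ) ^ 2 := by positivity
    have hAB : (0 : ℝ) ≤ (A.card : ℝ) * B.card := by positivity
    rcases Nat.lt_or_ge B.card 2 with hb | hb
    · have hb1 : B.card = 1 := by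
        have := card_pos.2 hB
        omega
      rw [g_single h3 hb1, hb1] at hg
      rw [hb1]
      push_cast at hg ⊢
      have h6 : (s : ℝ) ^ 2 * (g F A + 1 + 3 * (A.card : ℝ) ^ 2 + 3 * A.card) ≤
          (s : ℝ) ^ 2 * g F (A ∪ B) := by
        refine mul_le_mul_of_nonneg_left ?_ hss
        nlinarith
      refine le_trans ?_ h6
      have h7 : (4 : ℝ) ≤ (s : ℝ) ^ 2 := by nlinarith
      have h8 : 4 * (1 + 3 * (A.card : ℝ) ^ 2 + 3 * A.card) ≤
          (s : ℝ) ^ 2 * (1 + 3 * (A.card : ℝ) ^ 2 + 3 * A.card) :=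
        mul_le_mul_of_nonneg_right h7 (by positivity)
      nlinarith
    · have h2 := hTB hb (s - 1) (by
        have e : s - 1 + 1 = s := by omega
        rw [e]
        intro Y hY hYc
        obtain ⟨Y', hY', hYc'⟩ := exists_subset_card_eq (show q + 1 ≤ Y.card by omega)
        obtain ⟨Z, hZ, hZY⟩ := hqc Y' (hY'.trans hY) hYc'
        exact ⟨Z, hZ, hZY.trans hY'⟩)
      have hcast : ((s - 1 : ℕ) : ℝ) = (s : ℝ) - 1 := by
        rw [Nat.cast_sub (by omega)]
        simp
      rw [hcast] at h2
      have hq2 : 2 ≤ q := by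
        by_contra hcon
        have hq1' : q = 1 := by omega
        obtain ⟨Y, hY, hYc⟩ := exists_subset_card_eq hb
        obtain ⟨Z, hZ, hZY⟩ := hqc Y hY (by rw [hYc, hq1'])
        have := card_le_card hZY
        rw [h3 Z hZ, hYc] at this
        omega
      have hs3 : (3 : ℝ) ≤ s := by
        have : 3 ≤ s := by omega
        exact_mod_cast this
      have h5 := ineq_semi (a := A.card) (b := B.card) (by positivity) (by positivity) hs3 h1 h2
      refine h5.trans (mul_le_mul_of_nonneg_left ?_ hss)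
      nlinarith
  · intro Z hZ
    have h5 := (mem_two hd).1 hZ
    unfold inside
    rw [mem_filter]
    exact ⟨hall Z hZ, h5.1⟩
  · intro Z hZ
    have h5 := (mem_two hd).1 hZ
    have h6 := h3 Z (hall Z hZ)
    constructor
    · intro h
      rw [inter_eq_left.2 h] at h5
      omega
    · intro h
      rw [inter_eq_left.2 h] at h5
      omega

/-- **Turán's bound is preserved by uniform divisions into two classes.** -/
theorem split_three {F : Finset (Finset V)} {A B : Finset V} (hd : Disjoint A B)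
    (h3 : ∀ Z ∈ F, Z.card = 3) (hA : A.Nonempty) (hB : B.Nonempty) (hu : UniformPair F A B)
    (hTA : 2 ≤ A.card → TuranThree F A) (hTB : 2 ≤ B.card → TuranThree F B) :
    TuranThree F (A ∪ B) := by
  by_cases h1 : ∃ Z ∈ two A B, Z ∈ F
  · have hA2 : 2 ≤ A.card := by
      obtain ⟨Z, hZ, -⟩ := h1
      have h5 := (mem_two hd).1 hZ
      have := card_le_card (inter_subset_right : Z ∩ A ⊆ A)
      omega
    have hall : ∀ Z ∈ two A B, Z ∈ F := by
      obtain ⟨Z, hZ, hZF⟩ := h1
      exact fun Z' hZ' => hu.1 Z Z' hZ hZ' hZF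
    by_cases h2 : ∃ Z ∈ two B A, Z ∈ F
    · have hB2 : 2 ≤ B.card := by
        obtain ⟨Z, hZ, -⟩ := h2
        have h5 := (mem_two hd.symm).1 hZ
        have := card_le_card (inter_subset_right : Z ∩ B ⊆ B)
        omega
      have hall2 : ∀ Z ∈ two B A, Z ∈ F := by
        obtain ⟨Z, hZ, hZF⟩ := h2
        exact fun Z' hZ' => hu.2 Z Z' hZ hZ' hZF
      intro s hs
      have h5 := hTA hA2 s (hs.mono subset_union_left)
      have h6 := hTB hB2 s (hs.mono subset_union_right)
      have hs2 : 2 ≤ s := by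
        by_contra hcon
        obtain ⟨Y, hY, hYc⟩ := exists_subset_card_eq (show s + 1 ≤ A.card by omega)
        obtain ⟨Z, hZ, hZY⟩ := hs Y (hY.trans subset_union_left) hYc
        have := card_le_card hZY
        rw [h3 Z hZ, hYc] at this
        omega
      have hdis : Disjoint (two A B) (two B A) := by
        rw [Finset.disjoint_left]
        intro Z hZ hZ'
        have h7 := (mem_two hd).1 hZ
        have h8 := (mem_two hd.symm).1 hZ'
        omega
      have hg := g_union hd h3 (two A B ∪ two B A) ?_ ?_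
      · rw [card_union_of_disjoint hdis, Nat.cast_add, card_two hd, card_two hd.symm] at hg
        have hc : (A ∪ B).card = A.card + B.card := card_union_of_disjoint hd
        rw [hc]
        push_cast
        have hs2' : (2 : ℝ) ≤ s := by exact_mod_cast hs2
        have hss : (0 : ℝ) ≤ (s : ℝ) ^ 2 := by positivity
        have h7 : (s : ℝ) ^ 2 * (g F A + g F B + 3 * ((A.card : ℝ) * B.card * (A.card + B.card))) ≤
            (s : ℝ) ^ 2 * g F (A ∪ B) := by
          refine mul_le_mul_of_nonneg_left ?_ hss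
          nlinarith
        refine le_trans ?_ h7
        have h8 : (4 : ℝ) ≤ (s : ℝ) ^ 2 := by nlinarith
        have h9 : 4 * (3 * ((A.card : ℝ) * B.card * (A.card + B.card))) ≤
            (s : ℝ) ^ 2 * (3 * ((A.card : ℝ) * B.card * (A.card + B.card))) :=
          mul_le_mul_of_nonneg_right h8 (by positivity)
        nlinarith
      · intro Z hZ
        unfold inside
        rw [mem_filter]
        rcases mem_union.1 hZ with h | h
        · exact ⟨hall Z h, ((mem_two hd).1 h).1⟩
        · refine ⟨hall2 Z h, ?_⟩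
          rw [union_comm]
          exact ((mem_two hd.symm).1 h).1
      · intro Z hZ
        rcases mem_union.1 hZ with h | h
        · have h5 := (mem_two hd).1 h
          have h6 := h3 Z (hall Z h)
          constructor
          · intro h
            rw [inter_eq_left.2 h] at h5
            omega
          · intro h
            rw [inter_eq_left.2 h] at h5
            omega
        · have h5 := (mem_two hd.symm).1 h
          have h6 := h3 Z (hall2 Z h)
          constructor
          · intro h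
            rw [inter_eq_left.2 h] at h5
            omega
          · intro h
            rw [inter_eq_left.2 h] at h5
            omega
    · push Not at h2
      exact split_semi hd h3 hA2 hB hall h2 (hTA hA2) hTB
  · push Not at h1
    by_cases h2 : ∃ Z ∈ two B A, Z ∈ F
    · have hB2 : 2 ≤ B.card := by
        obtain ⟨Z, hZ, -⟩ := h2
        have h5 := (mem_two hd.symm).1 hZ
        have := card_le_card (inter_subset_right : Z ∩ B ⊆ B)
        omega
      have hall : ∀ Z ∈ two B A, Z ∈ F := by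
        obtain ⟨Z, hZ, hZF⟩ := h2
        exact fun Z' hZ' => hu.2 Z Z' hZ hZ' hZF
      rw [union_comm]
      exact split_semi hd.symm h3 hB2 hA hall h1 (hTB hB2) hTA
    · push Not at h2
      -- no mixed members
      intro s hs
      obtain ⟨p, hp1, hpc, I, hI, hindI, hIp⟩ := covers_of_max (F := F) A h3 hA
      obtain ⟨q, hq1, hqc, J, hJ, hindJ, hJq⟩ := covers_of_max (F := F) B h3 hB
      have hdIJ : Disjoint I J := (hd.mono_left hI).mono_right hJ
      have hind : Indep F (I ∪ J) := by
        intro Z hZ hZIJ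
        have hZAB : Z ⊆ A ∪ B := hZIJ.trans (union_subset_union hI hJ)
        have hZc := h3 Z hZ
        have hsum : (Z ∩ A).card + (Z ∩ B).card = 3 := by
          rw [← hZc, ← card_union_of_disjoint, ← inter_union_distrib_left, inter_eq_left.2 hZAB]
          exact hd.mono inter_subset_right inter_subset_right
        have hcases : (Z ∩ A).card = 0 ∨ (Z ∩ A).card = 1 ∨ (Z ∩ A).card = 2 ∨ (Z ∩ A).card = 3 := by
          omega
        rcases hcases with h | h | h | h
        · refine hindJ Z hZ fun v hv => ?_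
          rcases mem_union.1 (hZIJ hv) with h5 | h5
          · rw [card_eq_zero] at h
            have : v ∈ Z ∩ A := mem_inter.2 ⟨hv, hI h5⟩
            rw [h] at this
            exact absurd this (notMem_empty v)
          · exact h5
        · refine h2 Z ?_ hZ
          rw [mem_two hd.symm, union_comm]
          exact ⟨hZAB, by omega, h⟩
        · refine h1 Z ?_ hZ
          rw [mem_two hd]
          exact ⟨hZAB, h, by omega⟩
        · refine hindI Z hZ fun v hv => ?_
          rcases mem_union.1 (hZIJ hv) with h5 | h5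
          · exact h5
          · have h6 : (Z ∩ B).card = 0 := by omega
            rw [card_eq_zero] at h6
            have : v ∈ Z ∩ B := mem_inter.2 ⟨hv, hJ h5⟩
            rw [h6] at this
            exact absurd this (notMem_empty v)
      have hpq : p + q ≤ s := by
        have h5 := card_le_of_covers hs (union_subset_union hI hJ) hind
        rwa [card_union_of_disjoint hdIJ, hIp, hJq] at h5
      have hg := g_union hd h3 ∅ (empty_subset _) (by simp)
      rw [card_empty] at hg
      have hc : (A ∪ B).card = A.card + B.card := card_union_of_disjoint hd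
      rw [hc]
      push_cast at hg ⊢
      have hp0 : (1 : ℝ) ≤ p := by exact_mod_cast hp1
      have hq0 : (1 : ℝ) ≤ q := by exact_mod_cast hq1
      have hpq' : (p : ℝ) + q ≤ s := by exact_mod_cast hpq
      have hA0 : (1 : ℝ) ≤ A.card := by exact_mod_cast card_pos.2 hA
      have hB0 : (1 : ℝ) ≤ B.card := by exact_mod_cast card_pos.2 hB
      have hAB : (A.card : ℝ) + B.card ≤ A.card * B.card + 1 := by nlinarith
      have hss : (0 : ℝ) ≤ (s : ℝ) ^ 2 := by positivity
      -- the two parts
      have hx : ∃ x : ℝ, 4 * (A.card : ℝ) ^ 3 ≤ (p : ℝ) ^ 2 * x ∧ x ≤ g F A + 3 * (A.card * B.card) := by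
        rcases Nat.lt_or_ge A.card 2 with h | h
        · have h1 : A.card = 1 := by
            have := card_pos.2 hA
            omega
          refine ⟨4, ?_, ?_⟩
          · rw [h1]
            push_cast
            nlinarith
          · rw [g_single h3 h1, h1]
            push_cast
            linarith
        · refine ⟨g F A, hTA h p hpc, ?_⟩
          have : (0 : ℝ) ≤ (A.card : ℝ) * B.card := by positivity
          linarith
      have hy : ∃ y : ℝ, 4 * (B.card : ℝ) ^ 3 ≤ (q : ℝ) ^ 2 * y ∧ y ≤ g F B + 3 * (A.card * B.card) := by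
        rcases Nat.lt_or_ge B.card 2 with h | h
        · have h1 : B.card = 1 := by
            have := card_pos.2 hB
            omega
          refine ⟨4, ?_, ?_⟩
          · rw [h1]
            push_cast
            nlinarith
          · rw [g_single h3 h1, h1]
            push_cast
            linarith
        · refine ⟨g F B, hTB h q hqc, ?_⟩
          have : (0 : ℝ) ≤ (A.card : ℝ) * B.card := by positivity
          linarith
      obtain ⟨x, hx1, hx2⟩ := hx
      obtain ⟨y, hy1, hy2⟩ := hy
      have h5 := ineq_join (a := A.card) (b := B.card) (by positivity) (by positivity)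
        (by linarith) (by linarith) hpq' hx1 hy1
      refine h5.trans (mul_le_mul_of_nonneg_left ?_ hss)
      linarith

end Pool.Agent.T2H11.HS
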